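import Pool.Agent.W598.IA.Stm

/-!
Project IA (helper598, MP_56d946_al), part IA-BASE.
-/

set_option autoImplicit false

namespace Pool.Agent.W398.IA.Base

open Pool.Agent.W598.IA

/-- the vectors -/
abbrev V : Type := Z2 × Z2

/-- a numbering of the bit vectors -/
noncomputable def e : Fin 16 ≃ (Fin 2 → Fin 2) × (Fin 2 → Fin 2) :=
  (Fintype.equivFinOfCardEq (by simp)).symm

/-- the digits -/
noncomputable def dig (x : Fin 16) : V :=
  (fun j => (((e x).1 j : ℕ) : ℤ), fun j => (((e x).2 j : ℕ) : ℤ))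

/-- parity of an integer -/
def par (a : ℤ) : Fin 2 := ⟨(a % 2).toNat, by omega⟩

lemma par_cast (a : ℤ) : (((par a : Fin 2) : ℕ) : ℤ) = a % 2 := by
  unfold par
  simp only
  omega

/-- the letter of a vector -/
noncomputable def lt (v : V) : Fin 16 := e.symm (fun j => par (v.1 j), fun j => par (v.2 j))

/-- the half of a vector -/
def hf (v : V) : V := (fun j => v.1 j / 2, fun j => v.2 j / 2)

lemma dec (v : V) : dig (lt v) + (2 : ℤ) • hf v = v := by
  unfold dig lt hf
  rw [Equiv.apply_symm_apply]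
  apply Prod.ext
  · funext j
    simp only [Prod.fst_add, Prod.smul_fst, Pi.add_apply, Pi.smul_apply, smul_eq_mul]
    rw [par_cast]
    omega
  · funext j
    simp only [Prod.snd_add, Prod.smul_snd, Pi.add_apply, Pi.smul_apply, smul_eq_mul]
    rw [par_cast]
    omega

lemma uniq {x x' : Fin 16} {y y' : V} (h : dig x + (2 : ℤ) • y = dig x' + (2 : ℤ) • y') :
    x = x' ∧ y = y' := by
  have h1 : ∀ j, (((e x).1 j : ℕ) : ℤ) + 2 * y.1 j = (((e x').1 j : ℕ) : ℤ) + 2 * y'.1 j := by
    intro j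
    have := congrArg (fun p : V => p.1 j) h
    simpa [dig] using this
  have h2 : ∀ j, (((e x).2 j : ℕ) : ℤ) + 2 * y.2 j = (((e x').2 j : ℕ) : ℤ) + 2 * y'.2 j := by
    intro j
    have := congrArg (fun p : V => p.2 j) h
    simpa [dig] using this
  have b : ∀ a : Fin 2, (a : ℕ) < 2 := fun a => a.2
  constructor
  · apply e.injective
    apply Prod.ext
    · funext j
      apply Fin.ext
      have := h1 j
      have := b ((e x).1 j)
      have := b ((e x').1 j)
      omega
    · funext j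
      apply Fin.ext
      have := h2 j
      have := b ((e x).2 j)
      have := b ((e x').2 j)
      omega
  · apply Prod.ext
    · funext j
      have := h1 j
      have := b ((e x).1 j)
      have := b ((e x').1 j)
      omega
    · funext j
      have := h2 j
      have := b ((e x).2 j)
      have := b ((e x').2 j)
      omega

lemma lt_eq (x : Fin 16) (y : V) : lt (dig x + (2 : ℤ) • y) = x :=
  (uniq (dec (dig x + (2 : ℤ) • y))).1

/-- the linear map -/
def L (a b : S2) (v : V) : V := (lin a v.1, lin b v.2)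

lemma L_add (a b : S2) (v w : V) : L a b (v + w) = L a b v + L a b w := by
  unfold L
  rw [Prod.fst_add, Prod.snd_add, lin_add, lin_add]
  rfl

lemma L_zsmul (a b : S2) (c : ℤ) (v : V) : L a b (c • v) = c • L a b v := by
  unfold L
  rw [Prod.smul_fst, Prod.smul_snd, lin_zsmul, lin_zsmul]
  rfl

lemma L_inv (a b : S2) (v : V) : L a⁻¹ b⁻¹ (L a b v) = v := by
  unfold L
  simp only
  rw [lin_inv, lin_inv]

lemma inj (a b : S2) (t : V) : Function.Injective fun x : Fin 16 => lt (L a b (dig x) + t) := by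
  intro x x' h
  simp only at h
  have h1 := dec (L a b (dig x) + t)
  have h2 := dec (L a b (dig x') + t)
  rw [h] at h1
  have h3 : L a b (dig x) = L a b (dig x') +
      (2 : ℤ) • (hf (L a b (dig x) + t) - hf (L a b (dig x') + t)) := by
    rw [smul_sub]
    have h4 : L a b (dig x) = (L a b (dig x) + t) - t := by abel
    have h5 : L a b (dig x') = (L a b (dig x') + t) - t := by abel
    calc L a b (dig x) = (L a b (dig x) + t) - t := by abel
      _ = (dig (lt (L a b (dig x') + t)) + (2 : ℤ) • hf (L a b (dig x) + t)) - t := by rw [h1]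
      _ = (dig (lt (L a b (dig x') + t)) + (2 : ℤ) • hf (L a b (dig x') + t)) - t +
        ((2 : ℤ) • hf (L a b (dig x) + t) - (2 : ℤ) • hf (L a b (dig x') + t)) := by abel
      _ = (L a b (dig x') + t) - t +
        ((2 : ℤ) • hf (L a b (dig x) + t) - (2 : ℤ) • hf (L a b (dig x') + t)) := by rw [h2]
      _ = _ := by abel
  have h6 := congrArg (L a⁻¹ b⁻¹) h3
  rw [L_inv, L_add, L_inv, L_zsmul] at h6
  have h7 : dig x + (2 : ℤ) • (0 : V) = dig x' + (2 : ℤ) •
      L a⁻¹ b⁻¹ (hf (L a b (dig x) + t) - hf (L a b (dig x') + t)) := by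
    rw [smul_zero, add_zero]
    exact h6
  exact (uniq h7).1

/-- the box of radius `C` -/
def box (C : ℤ) : Set V := {v | (∀ j, |v.1 j| ≤ C) ∧ ∀ j, |v.2 j| ≤ C}

lemma box_finite (C : ℤ) : (box C).Finite := by
  have h : box C ⊆ (Set.univ.pi fun _ : Fin 2 => Set.Icc (-C) C) ×ˢ
      (Set.univ.pi fun _ : Fin 2 => Set.Icc (-C) C) := by
    rintro v ⟨h1, h2⟩
    refine ⟨fun j _ => abs_le.1 (h1 j), fun j _ => abs_le.1 (h2 j)⟩
  refine Set.Finite.subset (Set.Finite.prod ?_ ?_) h
  · exact Set.Finite.pi fun _ => Set.finite_Icc _ _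
  · exact Set.Finite.pi fun _ => Set.finite_Icc _ _

lemma hf_box {C : ℤ} {v : V} (h1 : ∀ j, |v.1 j| ≤ 2 * C - 1) (h2 : ∀ j, |v.2 j| ≤ 2 * C - 1) :
    hf v ∈ box C := by
  refine ⟨fun j => ?_, fun j => ?_⟩
  · have := abs_le.1 (h1 j)
    show |v.1 j / 2| ≤ C
    rw [abs_le]
    omega
  · have := abs_le.1 (h2 j)
    show |v.2 j / 2| ≤ C
    rw [abs_le]
    omega

theorem main : S_BASE := by
  classical
  refine ⟨dig, ⟨?_, ?_⟩, ?_⟩
  · rintro ⟨x, y⟩ ⟨x', y'⟩ h
    obtain ⟨h1, h2⟩ := uniq h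
    exact Prod.ext h1 h2
  · intro v
    exact ⟨(lt v, hf v), dec v⟩
  intro ι _ α β
  -- the bound
  obtain ⟨K, hK0, hK⟩ : ∃ K : ℤ, 0 ≤ K ∧ ∀ (i : ι) (x : Fin 16),
      (∀ j, |(L (α i) (β i) (dig x)).1 j| ≤ K) ∧ ∀ j, |(L (α i) (β i) (dig x)).2 j| ≤ K := by
    let g : ι × Fin 16 × Fin 2 → ℤ := fun p =>
      |(L (α p.1) (β p.1) (dig p.2.1)).1 p.2.2| + |(L (α p.1) (β p.1) (dig p.2.1)).2 p.2.2|
    obtain ⟨K, hK⟩ := (Set.finite_range g).bddAbove
    have hb : ∀ p, g p ≤ K := fun p => hK ⟨p, rfl⟩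
    refine ⟨max K 0, le_max_right _ _, fun i x => ⟨fun j => ?_, fun j => ?_⟩⟩
    · have h1 := hb (i, x, j)
      have h2 : 0 ≤ |(L (α i) (β i) (dig x)).2 j| := abs_nonneg _
      simp only [g] at h1
      exact le_trans (by linarith) (le_max_left _ _)
    · have h1 := hb (i, x, j)
      have h2 : 0 ≤ |(L (α i) (β i) (dig x)).1 j| := abs_nonneg _
      simp only [g] at h1
      exact le_trans (by linarith) (le_max_left _ _)
  have hfin : Finite (box (K + 1)) := (box_finite (K + 1)).to_subtype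
  obtain ⟨M, ⟨φ⟩⟩ := Finite.exists_equiv_fin (box (K + 1))
  -- the transition
  have hnext : ∀ (i : ι) (t : box (K + 1)) (x : Fin 16),
      hf (L (α i) (β i) (dig x) + t.1) ∈ box (K + 1) := by
    intro i t x
    have h1 := hK i x
    have h2 := t.2
    apply hf_box
    · intro j
      have h3 := h1.1 j
      have h4 := h2.1 j
      show |(L (α i) (β i) (dig x)).1 j + t.1.1 j| ≤ _
      have := abs_add_le ((L (α i) (β i) (dig x)).1 j) (t.1.1 j)
      linarith
    · intro j
      have h3 := h1.2 j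
      have h4 := h2.2 j
      show |(L (α i) (β i) (dig x)).2 j + t.1.2 j| ≤ _
      have := abs_add_le ((L (α i) (β i) (dig x)).2 j) (t.1.2 j)
      linarith
  refine ⟨M, fun i => ⟨fun s x => φ ⟨_, hnext i (φ.symm s) x⟩, fun s =>
    Equiv.ofBijective _ (Finite.injective_iff_bijective.1 (inj (α i) (β i) (φ.symm s).1))⟩,
    fun _ s => (φ.symm s).1, ?_, ?_⟩
  · intro i s x y
    show L (α i) (β i) (dig x + (2 : ℤ) • y) + (φ.symm s).1 =
      dig (lt (L (α i) (β i) (dig x) + (φ.symm s).1)) + (2 : ℤ) • (L (α i) (β i) y +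
        (φ.symm (φ ⟨_, hnext i (φ.symm s) x⟩)).1)
    rw [Equiv.symm_apply_apply]
    simp only
    rw [L_add, L_zsmul, smul_add]
    have h1 := dec (L (α i) (β i) (dig x) + (φ.symm s).1)
    calc L (α i) (β i) (dig x) + (2 : ℤ) • L (α i) (β i) y + (φ.symm s).1
        = (L (α i) (β i) (dig x) + (φ.symm s).1) + (2 : ℤ) • L (α i) (β i) y := by abel
      _ = (dig (lt (L (α i) (β i) (dig x) + (φ.symm s).1)) +
          (2 : ℤ) • hf (L (α i) (β i) (dig x) + (φ.symm s).1)) +
          (2 : ℤ) • L (α i) (β i) y := by rw [h1]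
      _ = _ := by abel
  · intro i c h1 h2
    have hc : c ∈ box (K + 1) :=
      ⟨fun j => (h1 j).trans (by linarith), fun j => (h2 j).trans (by linarith)⟩
    refine ⟨φ ⟨c, hc⟩, ?_⟩
    show (φ.symm (φ ⟨c, hc⟩)).1 = c
    rw [Equiv.symm_apply_apply]

end Pool.Agent.W398.IA.Base
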